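import Mathlib

/-!
# The `p`-intersection numbers of the complete multipartite graphs

For fixed `p ≥ 1`, `n ≥ 2` the `p`-intersection number of the complete `k`-partite graph with `k`
parts of size `n` is asymptotically equal to `(n / 2) log_2 k` as `k → ∞`.

Lower bound: in every part there are two sets `A`, `B` of total size at most `2 (t + n² p) / n`;
the parts are grouped by `A ∩ B` (fewer than `p` points), and in one group Tuza's count for crossing
pairs of disjoint sets gives at most `2 ^ (2 (t + n² p) / n)` parts.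

Upper bound: words over `n` letters in which each letter occurs equally often. For one pair of
letters the Gilbert bound in the middle layer gives a code of rate `2 / n` in which two different
words show both orders of this pair at least `p` times. Two such properties are combined without
loss of rate: the balanced words are covered by few translates of each of the two codes, which gives
two maps `f₁, f₂` of the balanced words to `ℤ/K`; the sequences `X_0, …, X_(L+1)` of balanced words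
with given ends and given `f₂ (X_(j+1)) - f₁ (X_j)` form a code which has the second property at the
first and the first property at the last place where two sequences differ.
-/

set_option autoImplicit false

namespace Pool.Agent.Results.MP_890668_co.CompleteMultipartite

open Finset Filter Topology

/-- `G` has a `p`-intersection representation on `t` points: finite sets `S v` of points of `Fin t`
such that two distinct vertices are adjacent iff `|S u ∩ S v| ≥ p`. -/
def Rep {V : Type*} (G : SimpleGraph V) (p t : ℕ) : Prop :=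
  ∃ S : V → Finset (Fin t), ∀ u v, u ≠ v → (G.Adj u v ↔ p ≤ (S u ∩ S v).card)

/-- The `p`-intersection number of `G`: the least `t` such that `G` has a `p`-intersection
representation on `t` points. -/
noncomputable def theta {V : Type*} (G : SimpleGraph V) (p : ℕ) : ℕ := sInf {t | Rep G p t}

/-- The complete `k`-partite graph with `k` parts of size `n`: vertices `(α, l)` with `α ∈ Fin n`
and `l ∈ Fin k` (the part), adjacent iff they lie in different parts. -/
def KM (n k : ℕ) : SimpleGraph (Fin n × Fin k) where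
  Adj u v := u.2 ≠ v.2
  symm := ⟨fun _ _ h => h.symm⟩
  loopless := ⟨fun _ h => h rfl⟩

/-! ### General facts -/

/-- representations by subsets of any finite type with `t` elements -/
theorem rep_of_fintype {V ι : Type*} [Fintype ι] [DecidableEq ι] {G : SimpleGraph V} {p t : ℕ}
    (ht : Fintype.card ι = t) (S : V → Finset ι)
    (hS : ∀ u v, u ≠ v → (G.Adj u v ↔ p ≤ (S u ∩ S v).card)) : Rep G p t := by
  let e : ι ≃ Fin t := Fintype.equivFinOfCardEq ht
  refine ⟨fun v => (S v).map e.toEmbedding, fun u v huv => ?_⟩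
  rw [hS u v huv, ← Finset.map_inter, Finset.card_map]

/-- words `W l ∈ (Fin n)^t`, `l < k`, such that any two show each of the `n²` pairs of letters at
least `p` times (a covering array) -/
def CA (p n k t : ℕ) : Prop :=
  ∃ W : Fin k → Fin t → Fin n, ∀ l m, l ≠ m → ∀ a b : Fin n,
    p ≤ (univ.filter (fun i => W l i = a ∧ W m i = b)).card

theorem CA.mono {p n k k' t : ℕ} (h : CA p n k t) (hk : k' ≤ k) : CA p n k' t := by
  obtain ⟨W, hW⟩ := h
  exact ⟨fun l => W (Fin.castLE hk l), fun l m hlm a b =>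
    hW _ _ (fun h => hlm (Fin.castLE_injective hk h)) a b⟩

theorem CA.rep {p n k t : ℕ} (hp : 1 ≤ p) (h : CA p n k t) : Rep (KM n k) p t := by
  obtain ⟨W, hW⟩ := h
  refine ⟨fun v => univ.filter (fun i => W v.2 i = v.1), ?_⟩
  rintro ⟨a, l⟩ ⟨b, m⟩ huv
  by_cases hlm : l = m
  · subst hlm
    have hab : a ≠ b := fun h => huv (by rw [h])
    constructor
    · intro h
      exact absurd rfl h
    · intro h
      exfalso
      have h0 : (univ.filter (fun i => W l i = a) ∩ univ.filter (fun i => W l i = b)) = ∅ := by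
        ext i
        simp only [mem_inter, mem_filter, mem_univ, true_and, notMem_empty, iff_false, not_and]
        rintro h1 h2
        exact hab (h1.symm.trans h2)
      simp only at h
      rw [h0, card_empty] at h
      omega
  · constructor
    · intro _
      have := hW l m hlm a b
      simp only
      rwa [← Finset.filter_and]
    · intro _
      exact hlm

theorem CA_base (p n : ℕ) : CA p n 2 (n * n * p) := by
  let e : (Fin n × Fin n) × Fin p ≃ Fin (n * n * p) :=
    (Equiv.prodCongr finProdFinEquiv (Equiv.refl _)).trans finProdFinEquiv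
  refine ⟨fun l i => if l = 0 then (e.symm i).1.1 else (e.symm i).1.2, ?_⟩
  have key : ∀ a b : Fin n, p ≤ (univ.filter (fun i => (e.symm i).1.1 = a ∧
      (e.symm i).1.2 = b)).card := by
    intro a b
    have h1 : (univ.image (fun c : Fin p => e ((a, b), c))).card = p := by
      rw [card_image_of_injective, card_univ, Fintype.card_fin]
      intro c c' hc
      have := e.injective hc
      exact (Prod.mk.inj this).2
    refine h1.symm.le.trans (card_le_card ?_)
    intro i hi
    simp only [mem_image, mem_univ, true_and] at hi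
    obtain ⟨c, rfl⟩ := hi
    simp
  intro l m hlm a b
  fin_cases l <;> fin_cases m
  · exact absurd rfl hlm
  · simpa using key a b
  · have := key b a
    simp only [Fin.isValue] at this ⊢
    refine this.trans (le_of_eq ?_)
    congr 1
    ext i
    simp [and_comm]
  · exact absurd rfl hlm

theorem CA_step {p n k t : ℕ} (h : CA p n k t) : CA p n (k * k) (t + t) := by
  obtain ⟨W, hW⟩ := h
  let f : Fin k × Fin k ≃ Fin (k * k) := finProdFinEquiv
  let e : Fin t ⊕ Fin t ≃ Fin (t + t) := finSumFinEquiv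
  refine ⟨fun l i => Sum.elim (W (f.symm l).1) (W (f.symm l).2) (e.symm i), ?_⟩
  intro l m hlm a b
  by_cases h1 : (f.symm l).1 = (f.symm m).1
  · have h2 : (f.symm l).2 ≠ (f.symm m).2 := by
      intro h2
      exact hlm (f.symm.injective (Prod.ext h1 h2))
    refine (hW _ _ h2 a b).trans ?_
    rw [← card_image_of_injective (f := fun i => e (Sum.inr i)) _
      (fun i j hij => Sum.inr_injective (e.injective hij))]
    apply card_le_card
    intro i hi
    simp only [mem_image, mem_filter, mem_univ, true_and] at hi ⊢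
    obtain ⟨j, hj, rfl⟩ := hi
    simpa using hj
  · refine (hW _ _ h1 a b).trans ?_
    rw [← card_image_of_injective (f := fun i => e (Sum.inl i)) _
      (fun i j hij => Sum.inl_injective (e.injective hij))]
    apply card_le_card
    intro i hi
    simp only [mem_image, mem_filter, mem_univ, true_and] at hi ⊢
    obtain ⟨j, hj, rfl⟩ := hi
    simpa using hj

theorem CA_pow (p n i : ℕ) : CA p n (2 ^ 2 ^ i) (2 ^ i * (n * n * p)) := by
  induction i with
  | zero => simpa using CA_base p n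
  | succ i ih =>
    have := CA_step ih
    have h1 : 2 ^ 2 ^ (i + 1) = 2 ^ 2 ^ i * 2 ^ 2 ^ i := by
      rw [← pow_add]
      congr 1
      rw [pow_succ]
      ring
    have h2 : 2 ^ (i + 1) * (n * n * p) = 2 ^ i * (n * n * p) + 2 ^ i * (n * n * p) := by
      rw [pow_succ]
      ring
    rw [h1, h2]
    exact this

theorem exists_rep {p n k : ℕ} (hp : 1 ≤ p) (hk : 2 ≤ k) :
    ∃ t, t ≤ 2 * p * n ^ 2 * Nat.clog 2 k ∧ Rep (KM n k) p t := by
  have hx : 1 ≤ Nat.clog 2 k := Nat.clog_pos (by norm_num) hk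
  set x := Nat.clog 2 k with hxdef
  have h1 : k ≤ 2 ^ x := Nat.le_pow_clog (by norm_num) k
  have h2 : x ≤ 2 ^ Nat.clog 2 x := Nat.le_pow_clog (by norm_num) x
  have h3 : 2 ^ Nat.clog 2 x ≤ 2 * x := by
    rcases Nat.lt_or_ge 1 x with h | h
    · have h4 := Nat.pow_pred_clog_lt_self (b := 2) (by norm_num) h
      have h5 : 1 ≤ Nat.clog 2 x := Nat.clog_pos (by norm_num) h
      have h6 : 2 ^ Nat.clog 2 x = 2 * 2 ^ (Nat.clog 2 x).pred := by
        have h7 : (Nat.clog 2 x).pred + 1 = Nat.clog 2 x := Nat.succ_pred_eq_of_pos h5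
        rw [← pow_succ', h7]
      rw [h6]
      exact Nat.mul_le_mul_left _ h4.le
    · have : x = 1 := le_antisymm h hx
      rw [this]
      simp
  refine ⟨2 ^ Nat.clog 2 x * (n * n * p), ?_, ?_⟩
  · calc 2 ^ Nat.clog 2 x * (n * n * p) ≤ 2 * x * (n * n * p) := Nat.mul_le_mul_right _ h3
      _ = 2 * p * n ^ 2 * x := by ring
  · refine CA.rep hp ((CA_pow p n (Nat.clog 2 x)).mono ?_)
    exact h1.trans (Nat.pow_le_pow_right (by norm_num) h2)

theorem rep_theta {p n k : ℕ} (hp : 1 ≤ p) (hk : 2 ≤ k) : Rep (KM n k) p (theta (KM n k) p) := by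
  obtain ⟨t, _, ht⟩ := exists_rep (n := n) hp hk
  exact Nat.sInf_mem (s := {t | Rep (KM n k) p t}) ⟨t, ht⟩

theorem theta_le {p n k : ℕ} (hp : 1 ≤ p) (hk : 2 ≤ k) :
    theta (KM n k) p ≤ 2 * p * n ^ 2 * Nat.clog 2 k := by
  obtain ⟨t, h, ht⟩ := exists_rep (n := n) hp hk
  exact (Nat.sInf_le ht).trans h

/-- the sets of a representation are pairwise different -/
theorem lower_simple {p n k t : ℕ} (hn : 2 ≤ n) (hk : 2 ≤ k)
    (h : Rep (KM n k) p t) : n * k ≤ 2 ^ t := by
  obtain ⟨S, hS⟩ := h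
  have hinj : Function.Injective S := by
    rintro ⟨a, l⟩ ⟨b, m⟩ hab
    by_contra hne
    by_cases hlm : l = m
    · subst hlm
      obtain ⟨m, hm⟩ : ∃ m : Fin k, m ≠ l := by
        have : Nontrivial (Fin k) := Fin.nontrivial_iff_two_le.2 hk
        exact exists_ne l
      have h1 : p ≤ (S (a, l) ∩ S (a, m)).card :=
        (hS (a, l) (a, m) (fun h => hm (Prod.mk.inj h).2.symm)).1 (fun h => hm h.symm)
      have h2 : ¬ p ≤ (S (a, l) ∩ S (b, l)).card := fun h =>
        ((hS (a, l) (b, l) hne).2 h) rfl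
      apply h2
      rw [← hab, inter_self]
      exact h1.trans (card_le_card inter_subset_left)
    · obtain ⟨c, hc⟩ : ∃ c : Fin n, c ≠ a := by
        have : Nontrivial (Fin n) := Fin.nontrivial_iff_two_le.2 hn
        exact exists_ne a
      have h1 : ¬ p ≤ (S (a, l) ∩ S (c, l)).card := fun h =>
        ((hS (a, l) (c, l) (fun h => hc (Prod.mk.inj h).1.symm)).2 h) rfl
      have h2 : p ≤ (S (b, m) ∩ S (c, l)).card :=
        (hS (b, m) (c, l) (fun h => hlm (Prod.mk.inj h).2.symm)).1 (fun h => hlm h.symm)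
      rw [hab] at h1
      exact h1 h2
  have := Fintype.card_le_of_injective S hinj
  simpa using this

/-! ### The lower bound -/

/-- Tuza's counting: `|I| ≤ 2 ^ c` for pairs of disjoint sets of total size at most `c` which cross. -/
theorem tuza {κ : Type*} [DecidableEq κ] {t c : ℕ} (I : Finset κ) (A B : κ → Finset (Fin t))
    (hd : ∀ i ∈ I, Disjoint (A i) (B i)) (hc : ∀ i ∈ I, (A i).card + (B i).card ≤ c)
    (hx : ∀ i ∈ I, ∀ j ∈ I, i ≠ j → (A i ∩ B j).Nonempty) : I.card ≤ 2 ^ c := by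
  have hsub : ∀ i ∈ I, A i ⊆ univ \ B i := fun i hi x hxA => by
    rw [Finset.mem_sdiff]
    exact ⟨mem_univ _, fun h => (Finset.disjoint_left.1 (hd i hi)) hxA h⟩
  have hcard : ∀ i ∈ I, 2 ^ t ≤ (Finset.Icc (A i) (univ \ B i)).card * 2 ^ c := by
    intro i hi
    rw [Finset.card_Icc_finset (hsub i hi), card_sdiff_of_subset (subset_univ _), card_univ,
      Fintype.card_fin, ← pow_add]
    apply Nat.pow_le_pow_right (by norm_num)
    have := hc i hi
    omega
  have hdis : ∀ i ∈ I, ∀ j ∈ I, i ≠ j →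
      Disjoint (Finset.Icc (A i) (univ \ B i)) (Finset.Icc (A j) (univ \ B j)) := by
    intro i hi j hj hij
    rw [Finset.disjoint_left]
    intro X hX hX'
    rw [Finset.mem_Icc] at hX hX'
    obtain ⟨x, hx1⟩ := hx i hi j hj hij
    rw [mem_inter] at hx1
    have h1 := hX.1 hx1.1
    have h2 := hX'.2 h1
    rw [Finset.mem_sdiff] at h2
    exact h2.2 hx1.2
  have h1 : ∑ i ∈ I, (Finset.Icc (A i) (univ \ B i)).card ≤ 2 ^ t := by
    rw [← Finset.card_biUnion hdis]
    refine (card_le_univ _).trans (le_of_eq ?_)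
    simp
  have h2 : I.card * 2 ^ t ≤ 2 ^ t * 2 ^ c := by
    calc I.card * 2 ^ t = ∑ i ∈ I, 2 ^ t := by simp
      _ ≤ ∑ i ∈ I, (Finset.Icc (A i) (univ \ B i)).card * 2 ^ c := sum_le_sum hcard
      _ = (∑ i ∈ I, (Finset.Icc (A i) (univ \ B i)).card) * 2 ^ c := by rw [sum_mul]
      _ ≤ 2 ^ t * 2 ^ c := Nat.mul_le_mul_right _ h1
  have h3 : 0 < 2 ^ t := by positivity
  rw [mul_comm] at h2
  exact Nat.le_of_mul_le_mul_left h2 h3

/-- the number of the subsets of `Fin t` with fewer than `p` elements -/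
theorem card_small (p t : ℕ) :
    ((univ : Finset (Finset (Fin t))).filter (fun C => C.card < p)).card ≤ p * (t + 1) ^ p := by
  have h1 : ((univ : Finset (Finset (Fin t))).filter (fun C => C.card < p)) =
      (range p).biUnion (fun j => powersetCard j univ) := by
    ext C
    simp only [mem_filter, mem_univ, true_and, mem_biUnion, mem_range, mem_powersetCard,
      subset_univ]
    constructor
    · intro h
      exact ⟨_, h, rfl⟩
    · rintro ⟨j, hj, rfl⟩
      exact hj
  rw [h1]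
  refine card_biUnion_le.trans ?_
  calc ∑ j ∈ range p, (powersetCard j (univ : Finset (Fin t))).card
      ≤ ∑ _j ∈ range p, (t + 1) ^ p := by
        apply sum_le_sum
        intro j hj
        rw [mem_range] at hj
        rw [card_powersetCard, card_univ, Fintype.card_fin]
        calc t.choose j ≤ t ^ j := Nat.choose_le_pow t j
          _ ≤ (t + 1) ^ j := Nat.pow_le_pow_left (by omega) _
          _ ≤ (t + 1) ^ p := Nat.pow_le_pow_right (by omega) hj.le
    _ = p * (t + 1) ^ p := by simp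

/-- the sizes of the sets of one part -/
theorem sum_sizes {n p t : ℕ} (S : Fin n → Finset (Fin t))
    (hS : ∀ a b, a ≠ b → (S a ∩ S b).card ≤ p) : ∑ a, (S a).card ≤ t + n * (n * p) := by
  classical
  set S' : Fin n → Finset (Fin t) := fun a => S a \ (univ.erase a).biUnion S with hS'
  have h1 : ∀ a, (S a).card ≤ (S' a).card + n * p := by
    intro a
    have h2 : S a ⊆ S' a ∪ (univ.erase a).biUnion (fun b => S a ∩ S b) := by
      intro x hx
      by_cases h : x ∈ (univ.erase a).biUnion S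
      · rw [mem_union]
        right
        rw [mem_biUnion] at h ⊢
        obtain ⟨b, hb, hxb⟩ := h
        exact ⟨b, hb, mem_inter.2 ⟨hx, hxb⟩⟩
      · rw [mem_union]
        left
        exact Finset.mem_sdiff.2 ⟨hx, h⟩
    have h3 : ((univ.erase a).biUnion (fun b => S a ∩ S b)).card ≤ n * p := by
      refine card_biUnion_le.trans ?_
      calc ∑ b ∈ univ.erase a, (S a ∩ S b).card ≤ ∑ _b ∈ univ.erase a, p :=
            sum_le_sum (fun b hb => hS a b (ne_of_mem_erase hb).symm)
        _ ≤ ∑ _b : Fin n, p := sum_le_sum_of_subset (erase_subset _ _)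
        _ = n * p := by simp
    calc (S a).card ≤ _ := card_le_card h2
      _ ≤ _ := card_union_le _ _
      _ ≤ _ := Nat.add_le_add_left h3 _
  have h4 : ∑ a, (S' a).card ≤ t := by
    rw [← card_biUnion]
    · refine (card_le_univ _).trans (le_of_eq ?_)
      simp
    · intro a _ b _ hab
      change Disjoint (S' a) (S' b)
      rw [Finset.disjoint_left]
      intro x hx hx'
      rw [hS', Finset.mem_sdiff] at hx hx'
      exact hx.2 (mem_biUnion.2 ⟨b, mem_erase.2 ⟨hab.symm, mem_univ _⟩, hx'.1⟩)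
  calc ∑ a, (S a).card ≤ ∑ a, ((S' a).card + n * p) := sum_le_sum (fun a _ => h1 a)
    _ = ∑ a, (S' a).card + n * (n * p) := by rw [sum_add_distrib]; simp
    _ ≤ t + n * (n * p) := Nat.add_le_add_right h4 _

/-- The counting lower bound: `k ≤ n p (t+1)^p 2^c` with `c = ⌊2 (t + n² p) / n⌋`. -/
theorem lower_count {p n k t : ℕ} (hn : 2 ≤ n)
    (h : Rep (KM n k) p t) :
    k ≤ n * (p * (t + 1) ^ p) * 2 ^ (2 * (t + n * (n * p)) / n) := by
  classical
  obtain ⟨m, rfl⟩ : ∃ m, n = m + 2 := ⟨n - 2, by omega⟩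
  obtain ⟨S, hS⟩ := h
  have hne : ∀ a : Fin (m + 2), a ≠ a + 1 := by
    intro a h
    have h1 : (1 : Fin (m + 2)) = 0 := by
      have h2 : a + 0 = a + 1 := by rw [add_zero]; exact h
      exact (add_left_cancel h2).symm
    exact absurd h1 (by simp)
  have hin : ∀ l a b, a ≠ b → (S (a, l) ∩ S (b, l)).card < p := by
    intro l a b hab
    by_contra hcon
    exact ((hS (a, l) (b, l) (fun h => hab (Prod.mk.inj h).1)).2 (not_lt.1 hcon)) rfl
  have hout : ∀ l l' a b, l ≠ l' → p ≤ (S (a, l) ∩ S (b, l')).card := fun l l' a b hl =>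
    (hS (a, l) (b, l') (fun h => hl (Prod.mk.inj h).2)).1 hl
  obtain ⟨M, hM⟩ : ∃ M, M = t + (m + 2) * ((m + 2) * p) := ⟨_, rfl⟩
  rw [← hM]
  have hsel : ∀ l, ∃ a : Fin (m + 2), (m + 2) * ((S (a, l)).card + (S (a + 1, l)).card) ≤ 2 * M := by
    intro l
    by_contra hcon
    push Not at hcon
    have h1 : ∑ a : Fin (m + 2), 2 * M < ∑ a : Fin (m + 2),
        (m + 2) * ((S (a, l)).card + (S (a + 1, l)).card) :=
      sum_lt_sum_of_nonempty univ_nonempty (fun a _ => hcon a)
    have h2 : ∑ a : Fin (m + 2), (S (a + 1, l)).card = ∑ a : Fin (m + 2), (S (a, l)).card :=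
      Equiv.sum_comp (Equiv.addRight (1 : Fin (m + 2))) (fun a => (S (a, l)).card)
    have e0 : ∑ _a : Fin (m + 2), 2 * M = (m + 2) * (2 * M) := by simp
    have e1 : ∑ a : Fin (m + 2), (m + 2) * ((S (a, l)).card + (S (a + 1, l)).card) =
        (m + 2) * (∑ a : Fin (m + 2), (S (a, l)).card + ∑ a : Fin (m + 2), (S (a, l)).card) := by
      rw [← mul_sum, sum_add_distrib, h2]
    rw [e0, e1] at h1
    have h3 : ∑ a : Fin (m + 2), (S (a, l)).card ≤ M := by
      rw [hM]
      exact sum_sizes (fun a => S (a, l)) (fun a b hab => (hin l a b hab).le)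
    have h4 := Nat.lt_of_mul_lt_mul_left h1
    omega
  choose f hf using hsel
  -- the groups
  set T : Finset (Fin (m + 2) × Finset (Fin t)) :=
    univ ×ˢ ((univ : Finset (Finset (Fin t))).filter (fun C => C.card < p)) with hT
  set g : Fin k → Fin (m + 2) × Finset (Fin t) :=
    fun l => (f l, S (f l, l) ∩ S (f l + 1, l)) with hg
  have hgT : ∀ l ∈ (univ : Finset (Fin k)), g l ∈ T := by
    intro l _
    rw [hT, mem_product]
    exact ⟨mem_univ _, mem_filter.2 ⟨mem_univ _, hin l _ _ (hne _)⟩⟩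
  have hgrp : ∀ y ∈ T, (univ.filter (fun l => g l = y)).card ≤ 2 ^ (2 * M / (m + 2)) := by
    rintro ⟨a, C⟩ hy
    have hC : C.card < p := by
      rw [hT, mem_product] at hy
      exact (mem_filter.1 hy.2).2
    have hl : ∀ l ∈ univ.filter (fun l => g l = (a, C)), f l = a ∧ S (a, l) ∩ S (a + 1, l) = C := by
      intro l hl
      have h1 := (mem_filter.1 hl).2
      rw [hg] at h1
      have h2 := Prod.mk.inj h1
      refine ⟨h2.1, ?_⟩
      rw [← h2.1]
      exact h2.2
    refine tuza _ (fun l => S (a, l) \ C) (fun l => S (a + 1, l) \ C) ?_ ?_ ?_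
    · intro l hl1
      rw [Finset.disjoint_left]
      intro x hx hx'
      rw [Finset.mem_sdiff] at hx hx'
      apply hx.2
      rw [← (hl l hl1).2]
      exact mem_inter.2 ⟨hx.1, hx'.1⟩
    · intro l hl1
      have h1 := hf l
      rw [(hl l hl1).1] at h1
      rw [Nat.le_div_iff_mul_le (by omega)]
      calc ((S (a, l) \ C).card + (S (a + 1, l) \ C).card) * (m + 2)
          ≤ ((S (a, l)).card + (S (a + 1, l)).card) * (m + 2) :=
            Nat.mul_le_mul_right _ (Nat.add_le_add (card_le_card sdiff_subset)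
              (card_le_card sdiff_subset))
        _ ≤ 2 * M := by rw [mul_comm]; exact h1
    · intro l hl1 l' hl1' hne'
      have h1 := hout l l' a (a + 1) hne'
      have h2 : ¬ S (a, l) ∩ S (a + 1, l') ⊆ C := fun h => by
        have := card_le_card h
        omega
      rw [Finset.not_subset] at h2
      obtain ⟨x, hx, hxC⟩ := h2
      rw [mem_inter] at hx
      exact ⟨x, mem_inter.2 ⟨Finset.mem_sdiff.2 ⟨hx.1, hxC⟩, Finset.mem_sdiff.2 ⟨hx.2, hxC⟩⟩⟩
  have h1 : k = (univ : Finset (Fin k)).card := by simp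
  have h2 : T.card ≤ (m + 2) * (p * (t + 1) ^ p) := by
    rw [hT, card_product, card_univ, Fintype.card_fin]
    exact Nat.mul_le_mul_left _ (card_small p t)
  calc k = (univ : Finset (Fin k)).card := h1
    _ = ∑ y ∈ T, (univ.filter (fun l => g l = y)).card := card_eq_sum_card_fiberwise hgT
    _ ≤ ∑ _y ∈ T, 2 ^ (2 * M / (m + 2)) := sum_le_sum hgrp
    _ = T.card * 2 ^ (2 * M / (m + 2)) := by simp
    _ ≤ _ := Nat.mul_le_mul_right _ h2

/-! ### Two vertices in every part -/

/-- The Gilbert bound in the middle layer. -/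
theorem code_exists {p : ℕ} (hp : 1 ≤ p) (h : ℕ) : ∃ F : Finset (Finset (Fin (2 * h))),
    (∀ A ∈ F, A.card = h) ∧ (∀ A ∈ F, ∀ B ∈ F, A ≠ B → p ≤ (A \ B).card) ∧
    (2 * h).choose h ≤ F.card * (p * (2 * h + 1) ^ p) ^ 2 := by
  classical
  set L : Finset (Finset (Fin (2 * h))) := powersetCard h univ with hL
  have hLc : ∀ A ∈ L, A.card = h := fun A hA => (mem_powersetCard.1 hA).2
  have hsym : ∀ A ∈ L, ∀ B ∈ L, (A \ B).card = (B \ A).card := by
    intro A hA B hB
    have h1 := card_sdiff_add_card_inter A B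
    have h2 := card_sdiff_add_card_inter B A
    rw [inter_comm] at h2
    have h3 := hLc A hA
    have h4 := hLc B hB
    omega
  set P : Finset (Finset (Finset (Fin (2 * h)))) :=
    L.powerset.filter (fun F => ∀ A ∈ F, ∀ B ∈ F, A ≠ B → p ≤ (A \ B).card) with hP
  have hPne : P.Nonempty := ⟨∅, by
    rw [hP, mem_filter]
    exact ⟨empty_mem_powerset _, by simp⟩⟩
  obtain ⟨F, hF, hmax⟩ := exists_max_image P card hPne
  rw [hP, mem_filter, mem_powerset] at hF
  refine ⟨F, fun A hA => hLc A (hF.1 hA), hF.2, ?_⟩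
  have hnear : ∀ A ∈ L, ∃ B ∈ F, (A \ B).card < p ∧ (B \ A).card < p := by
    intro A hA
    by_cases hAF : A ∈ F
    · exact ⟨A, hAF, by simp; omega, by simp; omega⟩
    · by_contra hcon
      push Not at hcon
      have h1 : insert A F ∈ P := by
        rw [hP, mem_filter, mem_powerset]
        refine ⟨insert_subset hA hF.1, ?_⟩
        intro X hX Y hY hXY
        rw [mem_insert] at hX hY
        rcases hX with rfl | hX <;> rcases hY with rfl | hY
        · exact absurd rfl hXY
        · by_contra h2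
          rw [not_le] at h2
          have h3 := hcon Y hY h2
          rw [hsym _ hA _ (hF.1 hY)] at h2
          omega
        · by_contra h2
          rw [not_le] at h2
          have h4 : (Y \ X).card < p := by
            rw [← hsym _ (hF.1 hX) _ hA]
            exact h2
          have h3 := hcon X hX h4
          omega
        · exact hF.2 X hX Y hY hXY
      have h2 := hmax _ h1
      rw [card_insert_of_notMem hAF] at h2
      omega
  set C : Finset (Finset (Fin (2 * h))) := univ.filter (fun C => C.card < p) with hC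
  have hcov : L ⊆ (F ×ˢ (C ×ˢ C)).image (fun z => (z.1 \ z.2.2) ∪ z.2.1) := by
    intro A hA
    obtain ⟨B, hB, h1, h2⟩ := hnear A hA
    rw [mem_image]
    refine ⟨(B, (A \ B, B \ A)), ?_, ?_⟩
    · simp only [mem_product, hC, mem_filter, mem_univ, true_and]
      exact ⟨hB, h1, h2⟩
    · ext x
      simp only [mem_union, Finset.mem_sdiff]
      tauto
  have h1 := (card_le_card hcov).trans card_image_le
  rw [card_product, card_product, hL, card_powersetCard, card_univ, Fintype.card_fin] at h1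
  refine h1.trans (Nat.mul_le_mul_left _ ?_)
  rw [pow_two]
  exact Nat.mul_le_mul (card_small p _) (card_small p _)


/-! ### Asymptotics -/

theorem eventually_poly_le {C c : ℝ} (q : ℕ) (hc : 0 < c) :
    ∀ᶠ h : ℕ in atTop, C * ((h : ℝ) + 1) ^ q ≤ 2 ^ (c * h) := by
  have hr : (1 : ℝ) < 2 ^ c := Real.one_lt_rpow (by norm_num) hc
  have h1 := tendsto_pow_const_div_const_pow_of_one_lt q hr
  have h2 : Tendsto (fun n : ℕ => |C| * 2 ^ q * ((n : ℝ) ^ q / (2 ^ c) ^ n)) atTop (𝓝 0) := by
    simpa using h1.const_mul (|C| * 2 ^ q)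
  filter_upwards [h2.eventually (gt_mem_nhds (zero_lt_one)), eventually_ge_atTop 1] with n hn hn1
  have hpos : (0 : ℝ) < (2 ^ c) ^ n := by positivity
  have h3 : |C| * 2 ^ q * (n : ℝ) ^ q < (2 ^ c) ^ n := by
    have := (div_lt_one hpos).1 (by rwa [mul_div_assoc])
    exact this
  have h4 : (2 : ℝ) ^ (c * n) = (2 ^ c) ^ n := by
    rw [Real.rpow_mul (by norm_num), Real.rpow_natCast]
  have hn1' : (1 : ℝ) ≤ n := by exact_mod_cast hn1
  rw [h4]
  calc C * ((n : ℝ) + 1) ^ q ≤ |C| * ((n : ℝ) + 1) ^ q :=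
        mul_le_mul_of_nonneg_right (le_abs_self C) (by positivity)
    _ ≤ |C| * (2 * n) ^ q := by
        apply mul_le_mul_of_nonneg_left _ (abs_nonneg C)
        exact pow_le_pow_left₀ (by positivity) (by linarith) _
    _ = |C| * 2 ^ q * (n : ℝ) ^ q := by rw [mul_pow]; ring
    _ ≤ (2 ^ c) ^ n := h3.le

theorem tendsto_theta {p n : ℕ} (hp : 1 ≤ p) (hn : 2 ≤ n) :
    Tendsto (fun k => theta (KM n k) p) atTop atTop := by
  rw [tendsto_atTop]
  intro b
  filter_upwards [eventually_ge_atTop (max 2 (2 ^ b))] with k hk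
  have hk2 : 2 ≤ k := (le_max_left _ _).trans hk
  have h1 := lower_simple hn hk2 (rep_theta (n := n) hp hk2)
  have h2 : 2 ^ b ≤ 2 ^ theta (KM n k) p := by
    calc 2 ^ b ≤ k := (le_max_right _ _).trans hk
      _ ≤ n * k := Nat.le_mul_of_pos_left _ (by omega)
      _ ≤ _ := h1
  exact (Nat.pow_le_pow_iff_right (by norm_num)).1 h2

theorem tendsto_logb : Tendsto (fun k : ℕ => Real.logb 2 k) atTop atTop :=
  (Real.tendsto_logb_atTop (by norm_num)).comp tendsto_natCast_atTop_atTop

/-- `liminf θ_p / log_2 k ≥ n / 2`. -/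
theorem lower_asymp {p n : ℕ} (hp : 1 ≤ p) (hn : 2 ≤ n) {ε : ℝ} (hε : 0 < ε) :
    ∀ᶠ k : ℕ in atTop, ((n : ℝ) / 2 - ε) * Real.logb 2 k ≤ theta (KM n k) p := by
  have hn0 : (0 : ℝ) < n := by exact_mod_cast (by omega : 0 < n)
  obtain ⟨η, hη⟩ : ∃ η : ℝ, η = 4 * ε / n ^ 2 := ⟨_, rfl⟩
  have hη0 : 0 < η := by rw [hη]; positivity
  have h1 := (tendsto_theta hp hn).eventually
    (eventually_poly_le (C := n * p * 2 ^ (2 * n * p)) p hη0)
  filter_upwards [h1, eventually_ge_atTop 2] with k hk hk2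
  set t := theta (KM n k) p with ht
  have h2 := lower_count hn (rep_theta (n := n) hp hk2)
  rw [← ht] at h2
  have hk0 : (0 : ℝ) < k := by exact_mod_cast (by omega : 0 < k)
  have h3 : (2 : ℝ) ^ (((2 * (t + n * (n * p)) / n : ℕ) : ℝ)) ≤
      2 ^ (2 * (t : ℝ) / n) * 2 ^ (2 * n * p) := by
    have h4 : (((2 * (t + n * (n * p)) / n : ℕ) : ℝ)) ≤ 2 * (t : ℝ) / n + ((2 * n * p : ℕ) : ℝ) := by
      refine Nat.cast_div_le.trans (le_of_eq ?_)
      push_cast
      field_simp
    calc (2 : ℝ) ^ (((2 * (t + n * (n * p)) / n : ℕ) : ℝ))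
        ≤ 2 ^ (2 * (t : ℝ) / n + ((2 * n * p : ℕ) : ℝ)) :=
          Real.rpow_le_rpow_of_exponent_le (by norm_num) h4
      _ = 2 ^ (2 * (t : ℝ) / n) * 2 ^ (2 * n * p) := by
          rw [Real.rpow_add (by norm_num), Real.rpow_natCast]
  have h5 : (k : ℝ) ≤ 2 ^ ((2 / n + η) * t) := by
    calc (k : ℝ) ≤ ((n * (p * (t + 1) ^ p) * 2 ^ (2 * (t + n * (n * p)) / n) : ℕ) : ℝ) := by
          exact_mod_cast h2
      _ = n * (p * ((t : ℝ) + 1) ^ p) * 2 ^ (((2 * (t + n * (n * p)) / n : ℕ) : ℝ)) := by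
          rw [Real.rpow_natCast]
          push_cast
          ring
      _ ≤ n * (p * ((t : ℝ) + 1) ^ p) * (2 ^ (2 * (t : ℝ) / n) * 2 ^ (2 * n * p)) :=
          mul_le_mul_of_nonneg_left h3 (by positivity)
      _ = (n * p * 2 ^ (2 * n * p)) * ((t : ℝ) + 1) ^ p * 2 ^ (2 * (t : ℝ) / n) := by ring
      _ ≤ 2 ^ (η * t) * 2 ^ (2 * (t : ℝ) / n) :=
          mul_le_mul_of_nonneg_right hk (by positivity)
      _ = 2 ^ ((2 / n + η) * t) := by
          rw [← Real.rpow_add (by norm_num)]
          congr 1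
          ring
  have h6 : Real.logb 2 k ≤ (2 / n + η) * t := by
    rw [Real.logb_le_iff_le_rpow (by norm_num) hk0]
    exact h5
  have ht0 : (0 : ℝ) ≤ t := Nat.cast_nonneg _
  rcases le_or_gt ((n : ℝ) / 2 - ε) 0 with h7 | h7
  · have h8 : 0 ≤ Real.logb 2 k :=
      Real.logb_nonneg (by norm_num) (by exact_mod_cast (by omega : 1 ≤ k))
    exact (mul_nonpos_of_nonpos_of_nonneg h7 h8).trans ht0
  · calc ((n : ℝ) / 2 - ε) * Real.logb 2 k ≤ ((n : ℝ) / 2 - ε) * ((2 / n + η) * t) :=
          mul_le_mul_of_nonneg_left h6 h7.le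
      _ = (((n : ℝ) / 2 - ε) * (2 / n + η)) * t := by ring
      _ ≤ 1 * t := by
          apply mul_le_mul_of_nonneg_right _ ht0
          have h9 : ((n : ℝ) / 2 - ε) * (2 / n + η) = 1 - ε * η := by
            rw [hη]
            field_simp
            ring
          rw [h9]
          nlinarith
      _ = t := one_mul _


/-! ### Codes of balanced words -/

/-- every letter occurs exactly `m` times in the word `x` -/
def Bal {ι : Type} [Fintype ι] {n : ℕ} (m : ℕ) (x : ι → Fin n) : Prop :=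
  ∀ a, (univ.filter (fun i => x i = a)).card = m

/-- two different words of `C` show each pair of letters of `E` at least `p` times -/
def Sep {ι : Type} [Fintype ι] {n : ℕ} (p : ℕ) (E : Fin n → Fin n → Prop)
    (C : Finset (ι → Fin n)) : Prop :=
  ∀ x ∈ C, ∀ y ∈ C, x ≠ y → ∀ a b, E a b →
    p ≤ (univ.filter (fun i => x i = a ∧ y i = b)).card

/-- a code of balanced words -/
def Code (ι : Type) [Fintype ι] {n : ℕ} (p m : ℕ) (E : Fin n → Fin n → Prop)
    (C : Finset (ι → Fin n)) : Prop := (∀ x ∈ C, Bal m x) ∧ Sep p E C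

theorem card_filter_equiv {ι κ : Type} [Fintype ι] [Fintype κ] (e : ι ≃ κ) (P : κ → Prop)
    [DecidablePred P] : (univ.filter (fun i => P (e i))).card = (univ.filter P).card := by
  classical
  rw [← card_map e.toEmbedding]
  congr 1
  ext j
  simp only [Finset.mem_map, mem_filter, mem_univ, true_and, Equiv.coe_toEmbedding]
  constructor
  · rintro ⟨i, hi, rfl⟩
    exact hi
  · intro hj
    exact ⟨e.symm j, by simpa using hj, by simp⟩

theorem Code.transport {ι κ : Type} [Fintype ι] [Fintype κ] [DecidableEq ι] [DecidableEq κ]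
    {n p m : ℕ} {E : Fin n → Fin n → Prop} {C : Finset (ι → Fin n)} (h : Code ι p m E C)
    (e : κ ≃ ι) : Code κ p m E (C.image (fun x => x ∘ e)) ∧
      (C.image (fun x => x ∘ e)).card = C.card := by
  refine ⟨⟨?_, ?_⟩, ?_⟩
  · intro x hx a
    rw [mem_image] at hx
    obtain ⟨y, hy, rfl⟩ := hx
    have := h.1 y hy a
    rw [← this]
    exact card_filter_equiv e (fun i => y i = a)
  · intro x hx y hy hxy a b hab
    rw [mem_image] at hx hy
    obtain ⟨x, hx, rfl⟩ := hx
    obtain ⟨y, hy, rfl⟩ := hy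
    have h1 := h.2 x hx y hy (fun h => hxy (by rw [h])) a b hab
    refine h1.trans (le_of_eq ?_)
    exact (card_filter_equiv e (fun i => x i = a ∧ y i = b)).symm
  · apply card_image_of_injective
    intro x y hxy
    exact e.surjective.injective_comp_right hxy

/-- words made of blocks -/
def blk {q : ℕ} {ι : Type} {n : ℕ} (X : Fin q → ι → Fin n) : Fin q × ι → Fin n :=
  fun z => X z.1 z.2

theorem blk_inj {q : ℕ} {ι : Type} {n : ℕ} :
    Function.Injective (blk : (Fin q → ι → Fin n) → (Fin q × ι → Fin n)) := by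
  intro X Y h
  funext j i
  exact congrFun h (j, i)

theorem blk_bal {q : ℕ} {ι : Type} [Fintype ι] {n m : ℕ} {X : Fin q → ι → Fin n}
    (hX : ∀ j, Bal m (X j)) : Bal (q * m) (blk X) := by
  classical
  intro a
  have h1 : (univ.filter (fun z : Fin q × ι => blk X z = a)) =
      univ.biUnion (fun j => (univ.filter (fun i => X j i = a)).image (fun i => (j, i))) := by
    ext ⟨j, i⟩
    simp [blk]
  rw [h1, card_biUnion]
  · have h2 : ∀ j, ((univ.filter (fun i => X j i = a)).image (fun i => (j, i))).card = m := by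
      intro j
      rw [card_image_of_injective _ (fun x y h => (Prod.mk.inj h).2)]
      exact hX j a
    rw [sum_congr rfl (fun j _ => h2 j)]
    simp
  · intro j _ j' _ hjj'
    change Disjoint _ _
    rw [Finset.disjoint_left]
    intro z hz hz'
    rw [mem_image] at hz hz'
    obtain ⟨i, _, rfl⟩ := hz
    obtain ⟨i', _, h⟩ := hz'
    exact hjj' (Prod.mk.inj h).1.symm

theorem blk_sep {q : ℕ} {ι : Type} [Fintype ι] {n p : ℕ} {X Y : Fin q → ι → Fin n} {a b : Fin n}
    (j : Fin q) (h : p ≤ (univ.filter (fun i => X j i = a ∧ Y j i = b)).card) :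
    p ≤ (univ.filter (fun z => blk X z = a ∧ blk Y z = b)).card := by
  classical
  refine h.trans ?_
  rw [← card_image_of_injective (f := fun i => (j, i)) _ (fun x y h => (Prod.mk.inj h).2)]
  apply card_le_card
  intro z hz
  simp only [mem_image, mem_filter, mem_univ, true_and] at hz ⊢
  obtain ⟨i, hi, rfl⟩ := hz
  exact hi

/-- powers of codes -/
theorem Code.pow {t : ℕ} {n p m : ℕ} {E : Fin n → Fin n → Prop} {C : Finset (Fin t → Fin n)}
    (h : Code (Fin t) p m E C) (q : ℕ) : ∃ C' : Finset (Fin (q * t) → Fin n),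
    Code (Fin (q * t)) p (q * m) E C' ∧ C'.card = C.card ^ q := by
  classical
  set D : Finset (Fin q × Fin t → Fin n) := (Fintype.piFinset (fun _ : Fin q => C)).image blk
    with hD
  have hDc : D.card = C.card ^ q := by
    rw [hD, card_image_of_injective _ blk_inj, Fintype.card_piFinset_const]
  have hDD : Code (Fin q × Fin t) p (q * m) E D := by
    constructor
    · intro x hx
      rw [hD, mem_image] at hx
      obtain ⟨X, hX, rfl⟩ := hx
      rw [Fintype.mem_piFinset] at hX
      exact blk_bal (fun j => h.1 _ (hX j))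
    · intro x hx y hy hxy a b hab
      rw [hD, mem_image] at hx hy
      obtain ⟨X, hX, rfl⟩ := hx
      obtain ⟨Y, hY, rfl⟩ := hy
      rw [Fintype.mem_piFinset] at hX hY
      obtain ⟨j, hj⟩ : ∃ j, X j ≠ Y j := by
        by_contra hcon
        push Not at hcon
        exact hxy (by rw [funext hcon])
      exact blk_sep j (h.2 _ (hX j) _ (hY j) hj a b hab)
  obtain ⟨h1, h2⟩ := hDD.transport (finProdFinEquiv (m := q) (n := t)).symm
  exact ⟨_, h1, h2.trans hDc⟩

/-! ### Covering by translates -/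

/-- all balanced words -/
noncomputable def WW (t n m : ℕ) : Finset (Fin t → Fin n) := by
  classical exact univ.filter (fun x => Bal m x)

theorem mem_WW {t n m : ℕ} {x : Fin t → Fin n} : x ∈ WW t n m ↔ Bal m x := by
  classical
  simp [WW]

theorem bal_comp {t n m : ℕ} {x : Fin t → Fin n} (hx : Bal m x) (σ : Equiv.Perm (Fin t)) :
    Bal m (x ∘ σ) := by
  intro a
  rw [← hx a]
  exact card_filter_equiv σ (fun i => x i = a)

/-- the symmetric group acts transitively on the balanced words -/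
theorem exists_perm {t n m : ℕ} {x y : Fin t → Fin n} (hx : Bal m x) (hy : Bal m y) :
    ∃ σ : Equiv.Perm (Fin t), x ∘ σ = y := by
  classical
  have h : ∀ a, Nonempty ({i // y i = a} ≃ {i // x i = a}) := by
    intro a
    apply Fintype.card_eq.1
    rw [Fintype.card_subtype, Fintype.card_subtype, hx a, hy a]
  let e : ∀ a, {i // y i = a} ≃ {i // x i = a} := fun a => (h a).some
  let σ : Fin t ≃ Fin t :=
    (Equiv.sigmaFiberEquiv y).symm.trans ((Equiv.sigmaCongrRight e).trans (Equiv.sigmaFiberEquiv x))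
  refine ⟨σ, ?_⟩
  funext i
  have h1 : σ i = (e (y i) ⟨i, rfl⟩).1 := rfl
  rw [Function.comp_apply, h1]
  exact (e (y i) ⟨i, rfl⟩).2

theorem count_perm {t n m : ℕ} {C : Finset (Fin t → Fin n)} (hC : C ⊆ WW t n m)
    {x : Fin t → Fin n} (hx : x ∈ WW t n m) :
    (WW t n m).card * (univ.filter (fun σ : Equiv.Perm (Fin t) => x ∘ σ ∈ C)).card =
      (univ : Finset (Equiv.Perm (Fin t))).card * C.card := by
  classical
  have h1 : ∀ y ∈ WW t n m, (univ.filter (fun σ : Equiv.Perm (Fin t) => y ∘ σ ∈ C)).card =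
      (univ.filter (fun σ : Equiv.Perm (Fin t) => x ∘ σ ∈ C)).card := by
    intro y hy
    obtain ⟨τ, hτ⟩ := exists_perm (mem_WW.1 hx) (mem_WW.1 hy)
    have : ∀ σ : Equiv.Perm (Fin t), y ∘ σ = x ∘ (Equiv.mulLeft τ σ) := by
      intro σ
      rw [← hτ]
      rfl
    simp only [this]
    exact card_filter_equiv (Equiv.mulLeft τ) (fun σ : Equiv.Perm (Fin t) => x ∘ σ ∈ C)
  have h2 : ∀ σ ∈ (univ : Finset (Equiv.Perm (Fin t))),
      ((WW t n m).filter (fun y => y ∘ σ ∈ C)).card = C.card := by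
    intro σ _
    rw [← card_image_of_injective (f := fun y : Fin t → Fin n => y ∘ σ) _
      σ.surjective.injective_comp_right]
    congr 1
    ext z
    simp only [mem_image, mem_filter]
    constructor
    · rintro ⟨y, ⟨_, hy⟩, rfl⟩
      exact hy
    · intro hz
      refine ⟨z ∘ σ.symm, ⟨?_, ?_⟩, ?_⟩
      · exact mem_WW.2 (bal_comp (mem_WW.1 (hC hz)) σ.symm)
      · have : (z ∘ σ.symm) ∘ σ = z := by
          funext i
          simp
        rw [this]
        exact hz
      · funext i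
        simp
  calc (WW t n m).card * (univ.filter (fun σ : Equiv.Perm (Fin t) => x ∘ σ ∈ C)).card
      = ∑ y ∈ WW t n m, (univ.filter (fun σ : Equiv.Perm (Fin t) => y ∘ σ ∈ C)).card := by
        rw [sum_congr rfl h1, sum_const, smul_eq_mul]
    _ = ∑ σ ∈ (univ : Finset (Equiv.Perm (Fin t))),
        ((WW t n m).filter (fun y => y ∘ σ ∈ C)).card := by
        simp only [card_filter]
        rw [sum_comm]
    _ = _ := by rw [sum_congr rfl h2, sum_const, smul_eq_mul]

/-- The balanced words are covered by `K` translates of `C` if `K |C| > |W| log |W|`. -/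
theorem cover {t n m K : ℕ} {C : Finset (Fin t → Fin n)} (hC : C ⊆ WW t n m)
    (hne : C.Nonempty)
    (hK : (WW t n m).card * Real.log (WW t n m).card < K * C.card) :
    ∃ τ : Fin K → Equiv.Perm (Fin t), ∀ x ∈ WW t n m, ∃ j, x ∘ τ j ∈ C := by
  classical
  by_contra hcon
  push Not at hcon
  set N := (WW t n m).card with hN
  set s := (univ : Finset (Equiv.Perm (Fin t))).card with hs
  have hN0 : 0 < N := by
    rw [hN]
    exact card_pos.2 (hne.mono hC)
  have hN0' : (0 : ℝ) < N := by exact_mod_cast hN0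
  have hs0 : 0 < s := by rw [hs]; exact card_pos.2 univ_nonempty
  have hs0' : (0 : ℝ) < s := by exact_mod_cast hs0
  have h1 : (univ : Finset (Fin K → Equiv.Perm (Fin t))) ⊆ (WW t n m).biUnion (fun x =>
      Fintype.piFinset (fun _ => univ.filter (fun σ : Equiv.Perm (Fin t) => ¬ x ∘ σ ∈ C))) := by
    intro τ _
    obtain ⟨x, hx, h⟩ := hcon τ
    rw [mem_biUnion]
    refine ⟨x, hx, ?_⟩
    rw [Fintype.mem_piFinset]
    intro j
    rw [mem_filter]
    exact ⟨mem_univ _, h j⟩
  have h2 := (card_le_card h1).trans card_biUnion_le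
  have h3 : ((univ : Finset (Fin K → Equiv.Perm (Fin t))).card : ℝ) = (s : ℝ) ^ K := by
    rw [card_univ, Fintype.card_fun, Fintype.card_fin, hs, card_univ]
    push_cast
    rfl
  have h4 : ∀ x ∈ WW t n m, ((Fintype.piFinset (fun _ : Fin K =>
      univ.filter (fun σ : Equiv.Perm (Fin t) => ¬ x ∘ σ ∈ C))).card : ℝ) =
      (s : ℝ) ^ K * (1 - C.card / N) ^ K := by
    intro x hx
    rw [Fintype.card_piFinset_const]
    push_cast
    rw [← mul_pow]
    congr 1
    have h5 := count_perm hC hx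
    rw [← hN, ← hs] at h5
    have h6 := card_filter_add_card_filter_not (s := (univ : Finset (Equiv.Perm (Fin t))))
      (fun σ => x ∘ σ ∈ C)
    rw [← hs] at h6
    have h5' : (N : ℝ) * ((univ.filter (fun σ : Equiv.Perm (Fin t) => x ∘ σ ∈ C)).card : ℝ) =
      s * C.card := by exact_mod_cast h5
    have h6' : ((univ.filter (fun σ : Equiv.Perm (Fin t) => x ∘ σ ∈ C)).card : ℝ) +
      ((univ.filter (fun σ : Equiv.Perm (Fin t) => ¬ x ∘ σ ∈ C)).card : ℝ) = s := by
      exact_mod_cast h6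
    field_simp
    nlinarith
  have h7 : (s : ℝ) ^ K ≤ N * ((s : ℝ) ^ K * (1 - C.card / N) ^ K) := by
    calc (s : ℝ) ^ K = ((univ : Finset (Fin K → Equiv.Perm (Fin t))).card : ℝ) := h3.symm
      _ ≤ ((∑ x ∈ WW t n m, (Fintype.piFinset (fun _ : Fin K =>
          univ.filter (fun σ : Equiv.Perm (Fin t) => ¬ x ∘ σ ∈ C))).card : ℕ) : ℝ) := by
          exact_mod_cast h2
      _ = ∑ x ∈ WW t n m, (s : ℝ) ^ K * (1 - C.card / N) ^ K := by
          push_cast
          exact sum_congr rfl h4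
      _ = N * ((s : ℝ) ^ K * (1 - C.card / N) ^ K) := by
          rw [sum_const, nsmul_eq_mul]
  have h8 : (1 : ℝ) ≤ N * (1 - C.card / N) ^ K := by
    have h9 : (0 : ℝ) < (s : ℝ) ^ K := by positivity
    have h10 : (s : ℝ) ^ K * 1 ≤ (s : ℝ) ^ K * (N * (1 - C.card / N) ^ K) := by
      rw [mul_one]
      calc (s : ℝ) ^ K ≤ _ := h7
        _ = _ := by ring
    exact le_of_mul_le_mul_left h10 h9
  have hCN : (C.card : ℝ) ≤ N := by exact_mod_cast card_le_card hC
  have h11 : (1 - (C.card : ℝ) / N) ^ K ≤ Real.exp (-(K * C.card / N)) := by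
    have h12 : 1 - (C.card : ℝ) / N ≤ Real.exp (-((C.card : ℝ) / N)) := by
      have := Real.add_one_le_exp (-((C.card : ℝ) / N))
      linarith
    have h13 : 0 ≤ 1 - (C.card : ℝ) / N := by
      rw [sub_nonneg, div_le_one hN0']
      exact hCN
    calc (1 - (C.card : ℝ) / N) ^ K ≤ (Real.exp (-((C.card : ℝ) / N))) ^ K :=
          pow_le_pow_left₀ h13 h12 _
      _ = Real.exp (-(K * C.card / N)) := by
          rw [← Real.exp_nat_mul]
          congr 1
          ring
  have h14 : Real.log N < K * C.card / N := by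
    rw [lt_div_iff₀ hN0', mul_comm]
    exact hK
  have h15 : N * Real.exp (-(K * C.card / N)) < 1 := by
    have h16 : Real.exp (-(K * C.card / N)) < Real.exp (-Real.log N) :=
      Real.exp_lt_exp.2 (by linarith)
    rw [Real.exp_neg (Real.log N), Real.exp_log hN0'] at h16
    calc N * Real.exp (-(K * C.card / N)) < N * (N : ℝ)⁻¹ := mul_lt_mul_of_pos_left h16 hN0'
      _ = 1 := mul_inv_cancel₀ hN0'.ne'
  have h17 : (N : ℝ) * (1 - C.card / N) ^ K ≤ N * Real.exp (-(K * C.card / N)) :=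
    mul_le_mul_of_nonneg_left h11 hN0'.le
  linarith

/-! ### The chain construction -/

theorem exists_big_fiber {α β : Type} [DecidableEq β] (s : Finset α) (T : Finset β) (f : α → β)
    (hf : ∀ a ∈ s, f a ∈ T) (hT : T.Nonempty) :
    ∃ y ∈ T, s.card ≤ T.card * (s.filter (fun a => f a = y)).card := by
  obtain ⟨y, hy, hmax⟩ := exists_max_image T (fun y => (s.filter (fun a => f a = y)).card) hT
  refine ⟨y, hy, ?_⟩
  rw [card_eq_sum_card_fiberwise hf]
  calc ∑ b ∈ T, (s.filter (fun a => f a = b)).card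
      ≤ ∑ _b ∈ T, (s.filter (fun a => f a = y)).card := sum_le_sum hmax
    _ = _ := by rw [sum_const, smul_eq_mul]

theorem chain {t n p m K L : ℕ} {E₁ E₂ : Fin n → Fin n → Prop}
    {C₁ C₂ : Finset (Fin t → Fin n)} (h₁ : Code (Fin t) p m E₁ C₁) (h₂ : Code (Fin t) p m E₂ C₂)
    (τ₁ τ₂ : Fin (K + 1) → Equiv.Perm (Fin t)) (hτ₁ : ∀ x ∈ WW t n m, ∃ j, x ∘ τ₁ j ∈ C₁)
    (hτ₂ : ∀ x ∈ WW t n m, ∃ j, x ∘ τ₂ j ∈ C₂) (hW : (WW t n m).Nonempty) :
    ∃ D : Finset (Fin ((L + 2) * t) → Fin n),
      Code (Fin ((L + 2) * t)) p ((L + 2) * m) (fun a b => E₁ a b ∨ E₂ a b) D ∧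
      (WW t n m).card ^ (L + 2) ≤ (K + 1) ^ (L + 1) * (WW t n m).card ^ 2 * D.card := by
  classical
  have e1 : ∀ x : Fin t → Fin n, ∃ j : ZMod (K + 1), x ∈ WW t n m → x ∘ τ₁ j ∈ C₁ := by
    intro x
    by_cases hx : x ∈ WW t n m
    · obtain ⟨j, hj⟩ := hτ₁ x hx
      exact ⟨j, fun _ => hj⟩
    · exact ⟨0, fun h => absurd h hx⟩
  have e2 : ∀ x : Fin t → Fin n, ∃ j : ZMod (K + 1), x ∈ WW t n m → x ∘ τ₂ j ∈ C₂ := by
    intro x
    by_cases hx : x ∈ WW t n m
    · obtain ⟨j, hj⟩ := hτ₂ x hx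
      exact ⟨j, fun _ => hj⟩
    · exact ⟨0, fun h => absurd h hx⟩
  choose f₁ hf₁ using e1
  choose f₂ hf₂ using e2
  have sep : ∀ (C : Finset (Fin t → Fin n)) (E : Fin n → Fin n → Prop) (_ : Code (Fin t) p m E C)
      (σ : Equiv.Perm (Fin t)) (x y : Fin t → Fin n), x ∘ σ ∈ C → y ∘ σ ∈ C → x ≠ y →
      ∀ a b, E a b → p ≤ (univ.filter (fun i => x i = a ∧ y i = b)).card := by
    intro C E hC σ x y hx hy hxy a b hab
    have h3 := hC.2 _ hx _ hy (fun h => hxy (σ.surjective.injective_comp_right h)) a b hab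
    exact h3.trans (le_of_eq (card_filter_equiv σ (fun i => x i = a ∧ y i = b)))
  set W := WW t n m with hWdef
  set S := Fintype.piFinset (fun _ : Fin (L + 2) => W) with hS
  set T : Finset ((Fin (L + 1) → ZMod (K + 1)) × ((Fin t → Fin n) × (Fin t → Fin n))) :=
    univ ×ˢ (W ×ˢ W) with hT
  let Φ : (Fin (L + 2) → (Fin t → Fin n)) →
      ((Fin (L + 1) → ZMod (K + 1)) × ((Fin t → Fin n) × (Fin t → Fin n))) :=
    fun X => (fun j => f₂ (X j.succ) - f₁ (X j.castSucc), (X 0, X (Fin.last _)))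
  have hΦ : ∀ X ∈ S, Φ X ∈ T := by
    intro X hX
    rw [hS, Fintype.mem_piFinset] at hX
    rw [hT, mem_product, mem_product]
    exact ⟨mem_univ _, hX _, hX _⟩
  have hTne : T.Nonempty := by
    obtain ⟨x, hx⟩ := hW
    exact ⟨(fun _ => 0, (x, x)), by rw [hT]; simp [hx]⟩
  obtain ⟨y, _, hy⟩ := exists_big_fiber S T Φ hΦ hTne
  set D₀ := S.filter (fun X => Φ X = y) with hD₀
  have hcode : Code (Fin (L + 2) × Fin t) p ((L + 2) * m) (fun a b => E₁ a b ∨ E₂ a b)
      (D₀.image blk) := by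
    constructor
    · intro x hx
      rw [mem_image] at hx
      obtain ⟨X, hX, rfl⟩ := hx
      rw [hD₀, mem_filter, hS, Fintype.mem_piFinset] at hX
      exact blk_bal (fun j => mem_WW.1 (hX.1 j))
    · intro x hx y' hy' hxy a b hab
      rw [mem_image] at hx hy'
      obtain ⟨X, hX, rfl⟩ := hx
      obtain ⟨Y, hY, rfl⟩ := hy'
      rw [hD₀, mem_filter, hS, Fintype.mem_piFinset] at hX hY
      have hXY : Φ X = Φ Y := hX.2.trans hY.2.symm
      have g1 : ∀ j : Fin (L + 1), f₂ (X j.succ) - f₁ (X j.castSucc) =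
          f₂ (Y j.succ) - f₁ (Y j.castSucc) := fun j => congrFun (congrArg Prod.fst hXY) j
      have g2 : X 0 = Y 0 := congrArg (fun z => z.2.1) hXY
      have g3 : X (Fin.last _) = Y (Fin.last _) := congrArg (fun z => z.2.2) hXY
      set J := univ.filter (fun j => X j ≠ Y j) with hJ
      have hJne : J.Nonempty := by
        by_contra hcon
        rw [not_nonempty_iff_eq_empty] at hcon
        apply hxy
        congr 1
        funext j
        by_contra hj
        have : j ∈ J := by rw [hJ, mem_filter]; exact ⟨mem_univ _, hj⟩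
        rw [hcon] at this
        exact absurd this (notMem_empty _)
      have hnotJ : ∀ j, j ∉ J → X j = Y j := by
        intro j hj
        by_contra h
        exact hj (by rw [hJ, mem_filter]; exact ⟨mem_univ _, h⟩)
      rcases hab with hab | hab
      · -- the last difference
        have hj := J.max'_mem hJne
        set j₁ := J.max' hJne with hj₁
        have hne : X j₁ ≠ Y j₁ := (mem_filter.1 hj).2
        have hl : j₁ ≠ Fin.last _ := fun h => hne (by rw [h]; exact g3)
        obtain ⟨j, hjj⟩ := Fin.exists_castSucc_eq.2 hl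
        have h4 : j.succ ∉ J := by
          intro h
          have h5 := J.le_max' _ h
          rw [← hj₁, ← hjj] at h5
          exact absurd (Fin.castSucc_lt_succ (i := j)) (not_lt.2 h5)
        have h5 := g1 j
        rw [hnotJ _ h4] at h5
        have h6 : f₁ (X j₁) = f₁ (Y j₁) := by
          rw [← hjj]
          exact sub_right_injective h5
        refine blk_sep j₁ (sep C₁ E₁ h₁ (τ₁ (f₁ (X j₁))) _ _ (hf₁ _ (hX.1 j₁)) ?_ hne a b hab)
        rw [h6]
        exact hf₁ _ (hY.1 j₁)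
      · -- the first difference
        have hj := J.min'_mem hJne
        set j₁ := J.min' hJne with hj₁
        have hne : X j₁ ≠ Y j₁ := (mem_filter.1 hj).2
        have hl : j₁ ≠ 0 := fun h => hne (by rw [h]; exact g2)
        obtain ⟨j, hjj⟩ := Fin.exists_succ_eq.2 hl
        have h4 : j.castSucc ∉ J := by
          intro h
          have h5 := J.min'_le _ h
          rw [← hj₁, ← hjj] at h5
          exact absurd (Fin.castSucc_lt_succ (i := j)) (not_lt.2 h5)
        have h5 := g1 j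
        rw [hnotJ _ h4] at h5
        have h6 : f₂ (X j₁) = f₂ (Y j₁) := by
          rw [← hjj]
          exact sub_left_injective h5
        refine blk_sep j₁ (sep C₂ E₂ h₂ (τ₂ (f₂ (X j₁))) _ _ (hf₂ _ (hX.1 j₁)) ?_ hne a b hab)
        rw [h6]
        exact hf₂ _ (hY.1 j₁)
  obtain ⟨h5, h6⟩ := hcode.transport (finProdFinEquiv (m := L + 2) (n := t)).symm
  refine ⟨_, h5, ?_⟩
  rw [h6, card_image_of_injective _ blk_inj]
  calc W.card ^ (L + 2) = S.card := by rw [hS, Fintype.card_piFinset_const]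
    _ ≤ T.card * D₀.card := hy
    _ = (K + 1) ^ (L + 1) * W.card ^ 2 * D₀.card := by
        rw [hT, card_product, card_product, card_univ, Fintype.card_fun, ZMod.card,
          Fintype.card_fin, pow_two]

/-! ### Achievable rates -/

/-- there is a code of balanced words of some length `n m` with at least `2 ^ (ρ n m)` words -/
def Ach (n p : ℕ) (E : Fin n → Fin n → Prop) (ρ : ℝ) : Prop :=
  ∃ m : ℕ, 1 ≤ m ∧ ∃ C : Finset (Fin (n * m) → Fin n), Code (Fin (n * m)) p m E C ∧
    (2 : ℝ) ^ (ρ * (n * m)) ≤ C.card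

theorem code_mul {n p m : ℕ} {E : Fin n → Fin n → Prop} {ρ : ℝ}
    {C : Finset (Fin (n * m) → Fin n)} (hC : Code (Fin (n * m)) p m E C)
    (h : (2 : ℝ) ^ (ρ * (n * m)) ≤ C.card) (q : ℕ) :
    ∃ C' : Finset (Fin (n * (q * m)) → Fin n), Code (Fin (n * (q * m))) p (q * m) E C' ∧
      (2 : ℝ) ^ (ρ * (n * (q * m))) ≤ C'.card := by
  obtain ⟨C₁, h1, h2⟩ := hC.pow q
  obtain ⟨h3, h4⟩ := h1.transport (finCongr (by ring : n * (q * m) = q * (n * m)))
  refine ⟨_, h3, ?_⟩
  rw [h4, h2]
  push_cast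
  calc (2 : ℝ) ^ (ρ * (n * (q * m))) = ((2 : ℝ) ^ (ρ * (n * m))) ^ q := by
        rw [← Real.rpow_natCast, ← Real.rpow_mul (by norm_num)]
        congr 1
        ring
    _ ≤ _ := pow_le_pow_left₀ (by positivity) h _

theorem Ach.step {n p : ℕ} {E₁ E₂ : Fin n → Fin n → Prop} {ρ ρ' : ℝ} (hn : 1 ≤ n)
    (hρ : ρ' < ρ) (h₁ : Ach n p E₁ ρ) (h₂ : Ach n p E₂ ρ) :
    Ach n p (fun a b => E₁ a b ∨ E₂ a b) ρ' := by
  classical
  obtain ⟨m₁, hm₁, C₁, hC₁, hc₁⟩ := h₁
  obtain ⟨m₂, hm₂, C₂, hC₂, hc₂⟩ := h₂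
  obtain ⟨γ, hγ⟩ : ∃ γ : ℝ, γ = (ρ - ρ') / 2 := ⟨_, rfl⟩
  have hγ0 : 0 < γ := by rw [hγ]; linarith
  have hn0 : (0 : ℝ) < n := by exact_mod_cast hn
  have hn1 : (1 : ℝ) ≤ n := by exact_mod_cast hn
  have hT : Tendsto (fun q : ℕ => q * (m₁ * m₂)) atTop atTop :=
    tendsto_id.atTop_mul_const' (Nat.mul_pos hm₁ hm₂)
  obtain ⟨q, hq, hq1⟩ := ((hT.eventually (eventually_poly_le (C := (n : ℝ) ^ 2 + 2) 1
    (c := γ * n) (by positivity))).and (eventually_ge_atTop 1)).exists
  obtain ⟨m, hm⟩ : ∃ m, m = q * (m₁ * m₂) := ⟨_, rfl⟩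
  rw [← hm] at hq
  have hm1 : 1 ≤ m := by rw [hm]; exact Nat.mul_pos hq1 (Nat.mul_pos hm₁ hm₂)
  obtain ⟨A₁, hA₁, ha₁⟩ : ∃ C : Finset (Fin (n * m) → Fin n), Code (Fin (n * m)) p m E₁ C ∧
      (2 : ℝ) ^ (ρ * (n * m)) ≤ C.card := by
    have := code_mul hC₁ hc₁ (q * m₂)
    have e : q * m₂ * m₁ = m := by rw [hm]; ring
    have e' : ((q * m₂ : ℕ) : ℝ) * m₁ = m := by rw [← e]; push_cast; ring
    rw [e, e'] at this
    exact this
  obtain ⟨A₂, hA₂, ha₂⟩ : ∃ C : Finset (Fin (n * m) → Fin n), Code (Fin (n * m)) p m E₂ C ∧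
      (2 : ℝ) ^ (ρ * (n * m)) ≤ C.card := by
    have := code_mul hC₂ hc₂ (q * m₁)
    have e : q * m₁ * m₂ = m := by rw [hm]; ring
    have e' : ((q * m₁ : ℕ) : ℝ) * m₂ = m := by rw [← e]; push_cast; ring
    rw [e, e'] at this
    exact this
  have hs₁ : A₁ ⊆ WW (n * m) n m := fun x hx => mem_WW.2 (hA₁.1 x hx)
  have hs₂ : A₂ ⊆ WW (n * m) n m := fun x hx => mem_WW.2 (hA₂.1 x hx)
  obtain ⟨M, hM⟩ : ∃ M : ℝ, M = (2 : ℝ) ^ (ρ * (n * m)) := ⟨_, rfl⟩
  have hM0 : 0 < M := by rw [hM]; positivity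
  rw [← hM] at ha₁ ha₂
  have hne₁ : A₁.Nonempty := card_pos.1 (by exact_mod_cast hM0.trans_le ha₁)
  have hne₂ : A₂.Nonempty := card_pos.1 (by exact_mod_cast hM0.trans_le ha₂)
  set N := (WW (n * m) n m).card with hN
  have hN0 : 0 < N := card_pos.2 (hne₁.mono hs₁)
  have hN0' : (0 : ℝ) < N := by exact_mod_cast hN0
  have hMN : M ≤ N := ha₁.trans (by exact_mod_cast card_le_card hs₁)
  have hlog : 0 ≤ Real.log N := Real.log_nonneg (by exact_mod_cast hN0)
  have hN2 : (N : ℝ) ≤ 2 ^ ((n : ℝ) * (n * m)) := by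
    have h1 : N ≤ n ^ (n * m) := by
      refine (card_le_univ _).trans (le_of_eq ?_)
      simp
    have h2 : n ^ (n * m) ≤ (2 ^ n) ^ (n * m) := Nat.pow_le_pow_left n.lt_two_pow_self.le _
    calc (N : ℝ) ≤ (((2 ^ n) ^ (n * m) : ℕ) : ℝ) := by exact_mod_cast h1.trans h2
      _ = 2 ^ ((n : ℝ) * (n * m)) := by
          push_cast
          rw [← pow_mul, ← Real.rpow_natCast]
          push_cast
          rfl
  have hlogN : Real.log N + 2 ≤ 2 ^ (γ * n * m) := by
    refine le_trans ?_ hq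
    have h1 : Real.log N ≤ (n : ℝ) * (n * m) := by
      calc Real.log N ≤ Real.log (2 ^ ((n : ℝ) * (n * m))) := Real.log_le_log hN0' hN2
        _ = (n : ℝ) * (n * m) * Real.log 2 := Real.log_rpow (by norm_num) _
        _ ≤ (n : ℝ) * (n * m) * 1 := by
            apply mul_le_mul_of_nonneg_left _ (by positivity)
            have := Real.log_two_lt_d9
            linarith
        _ = _ := mul_one _
    have h2 : (0 : ℝ) ≤ m := Nat.cast_nonneg _
    rw [pow_one]
    nlinarith [sq_nonneg (n : ℝ)]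
  obtain ⟨K, hK⟩ : ∃ K : ℕ, K + 1 = ⌈(N / M) * (Real.log N + 1)⌉₊ := by
    have h1 : 0 < ⌈(N / M) * (Real.log N + 1)⌉₊ := Nat.ceil_pos.2 (by positivity)
    exact ⟨⌈(N / M) * (Real.log N + 1)⌉₊ - 1, by omega⟩
  have hK1 : (N / M) * (Real.log N + 1) ≤ ((K + 1 : ℕ) : ℝ) := by rw [hK]; exact Nat.le_ceil _
  have hK2 : ((K + 1 : ℕ) : ℝ) ≤ (N / M) * (Real.log N + 2) := by
    have h1 : ((K + 1 : ℕ) : ℝ) < (N / M) * (Real.log N + 1) + 1 := by
      rw [hK]
      exact Nat.ceil_lt_add_one (by positivity)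
    have h2 : 1 ≤ N / M := (one_le_div hM0).2 hMN
    nlinarith
  have hcov : ∀ A : Finset (Fin (n * m) → Fin n), M ≤ A.card →
      (N : ℝ) * Real.log N < ((K + 1 : ℕ) : ℝ) * A.card := by
    intro A hA
    calc (N : ℝ) * Real.log N < N * (Real.log N + 1) := by nlinarith
      _ = ((N / M) * (Real.log N + 1)) * M := by field_simp
      _ ≤ ((K + 1 : ℕ) : ℝ) * A.card := mul_le_mul hK1 hA hM0.le (by positivity)
  obtain ⟨τ₁, hτ₁⟩ := cover hs₁ hne₁ (hcov A₁ ha₁)
  obtain ⟨τ₂, hτ₂⟩ := cover hs₂ hne₂ (hcov A₂ ha₂)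
  obtain ⟨L, hL⟩ : ∃ L : ℕ, L = ⌈((n : ℝ) + ρ') / γ⌉₊ := ⟨_, rfl⟩
  have hL1 : (n : ℝ) + ρ' ≤ ((L : ℝ) + 1) * γ := by
    have h1 : ((n : ℝ) + ρ') / γ ≤ L := by rw [hL]; exact Nat.le_ceil _
    rw [div_le_iff₀ hγ0] at h1
    linarith
  obtain ⟨D, hD, hDc⟩ := chain (L := L) hA₁ hA₂ τ₁ τ₂ hτ₁ hτ₂ (hne₁.mono hs₁)
  obtain ⟨h3, h4⟩ := hD.transport
    (finCongr (by ring : n * ((L + 2) * m) = (L + 2) * (n * m)))
  refine ⟨(L + 2) * m, Nat.mul_pos (by omega) hm1, _, h3, ?_⟩
  rw [h4]
  rw [← hN] at hDc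
  have hDc' : (N : ℝ) ^ (L + 2) ≤ ((K + 1 : ℕ) : ℝ) ^ (L + 1) * (N : ℝ) ^ 2 * D.card := by
    exact_mod_cast hDc
  obtain ⟨B, hB⟩ : ∃ B : ℝ, B = Real.log N + 2 := ⟨_, rfl⟩
  have hB0 : 0 < B := by rw [hB]; positivity
  rw [← hB] at hK2 hlogN
  -- `M ^ (L+1) ≤ N B ^ (L+1) |D|`
  have h5 : M ^ (L + 1) ≤ N * B ^ (L + 1) * D.card := by
    have h6 : (N : ℝ) ^ (L + 2) ≤ ((N / M) * B) ^ (L + 1) * (N : ℝ) ^ 2 * D.card := by
      refine hDc'.trans ?_
      apply mul_le_mul_of_nonneg_right _ (Nat.cast_nonneg _)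
      apply mul_le_mul_of_nonneg_right _ (by positivity)
      exact pow_le_pow_left₀ (by positivity) hK2 _
    have h7 : ((N / M) * B) ^ (L + 1) * M ^ (L + 1) = (N : ℝ) ^ (L + 1) * B ^ (L + 1) := by
      rw [← mul_pow, ← mul_pow]
      congr 1
      field_simp
    have h8 : (N : ℝ) ^ (L + 2) * M ^ (L + 1) ≤
        (N : ℝ) ^ (L + 2) * (N * B ^ (L + 1) * D.card) := by
      calc (N : ℝ) ^ (L + 2) * M ^ (L + 1)
          ≤ (((N / M) * B) ^ (L + 1) * (N : ℝ) ^ 2 * D.card) * M ^ (L + 1) :=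
            mul_le_mul_of_nonneg_right h6 (by positivity)
        _ = (((N / M) * B) ^ (L + 1) * M ^ (L + 1)) * ((N : ℝ) ^ 2 * D.card) := by ring
        _ = (N : ℝ) ^ (L + 2) * (N * B ^ (L + 1) * D.card) := by rw [h7]; ring
    exact le_of_mul_le_mul_left h8 (by positivity)
  have h6 : B ^ (L + 1) ≤ 2 ^ ((γ * n * m) * (L + 1)) := by
    calc B ^ (L + 1) ≤ (2 ^ (γ * n * m)) ^ (L + 1) := pow_le_pow_left₀ hB0.le hlogN _
      _ = 2 ^ ((γ * n * m) * (L + 1)) := by
          rw [← Real.rpow_natCast, ← Real.rpow_mul (by norm_num)]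
          push_cast
          rfl
  have h7 : M ^ (L + 1) = 2 ^ ((ρ * (n * m)) * (L + 1)) := by
    rw [hM, ← Real.rpow_natCast, ← Real.rpow_mul (by norm_num)]
    push_cast
    rfl
  have h8 : (2 : ℝ) ^ (ρ' * (n * ((L + 2) * m))) * (N * B ^ (L + 1)) ≤ M ^ (L + 1) := by
    calc (2 : ℝ) ^ (ρ' * (n * ((L + 2) * m))) * (N * B ^ (L + 1))
        ≤ 2 ^ (ρ' * (n * ((L + 2) * m))) *
          (2 ^ ((n : ℝ) * (n * m)) * 2 ^ ((γ * n * m) * (L + 1))) := by
          apply mul_le_mul_of_nonneg_left _ (by positivity)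
          exact mul_le_mul hN2 h6 (by positivity) (by positivity)
      _ = 2 ^ (ρ' * (n * ((L + 2) * m)) + ((n : ℝ) * (n * m) + (γ * n * m) * (L + 1))) := by
          rw [Real.rpow_add (by norm_num), Real.rpow_add (by norm_num)]
      _ ≤ 2 ^ ((ρ * (n * m)) * (L + 1)) := by
          apply Real.rpow_le_rpow_of_exponent_le (by norm_num)
          have h9 : (0 : ℝ) ≤ n * m := by positivity
          have h10 : ρ' * (L + 2) + n + γ * (L + 1) ≤ ρ * (L + 1) := by
            have : ρ = ρ' + 2 * γ := by rw [hγ]; ring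
            rw [this]
            nlinarith
          have h11 := mul_le_mul_of_nonneg_left h10 h9
          calc ρ' * (n * ((L + 2) * m)) + ((n : ℝ) * (n * m) + (γ * n * m) * (L + 1))
              = (n * m) * (ρ' * (L + 2) + n + γ * (L + 1)) := by ring
            _ ≤ (n * m) * (ρ * (L + 1)) := h11
            _ = _ := by ring
      _ = M ^ (L + 1) := h7.symm
  have h9 : (0 : ℝ) < N * B ^ (L + 1) := by positivity
  have h10 : (N * B ^ (L + 1)) * (2 : ℝ) ^ (ρ' * (n * ((L + 2) * m))) ≤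
      (N * B ^ (L + 1)) * D.card := by
    rw [mul_comm]
    exact h8.trans h5
  have h11 := le_of_mul_le_mul_left h10 h9
  push_cast
  exact h11

theorem Ach.mono {n p : ℕ} {E E' : Fin n → Fin n → Prop} {ρ : ℝ} (h : Ach n p E ρ)
    (hE : ∀ a b, E' a b → E a b) : Ach n p E' ρ := by
  obtain ⟨m, hm, C, hC, hc⟩ := h
  exact ⟨m, hm, C, ⟨hC.1, fun x hx y hy hxy a b hab => hC.2 x hx y hy hxy a b (hE a b hab)⟩, hc⟩

/-! ### One pair of letters -/

/-- the word of a set `A` -/
def wd {n h : ℕ} (a b : Fin n) (A : Finset (Fin (2 * h))) :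
    (Fin 2 × Fin h) ⊕ ({c : Fin n // c ≠ a ∧ c ≠ b} × Fin h) → Fin n :=
  Sum.elim (fun z => if (finProdFinEquiv z : Fin (2 * h)) ∈ A then a else b) (fun z => z.1.1)

theorem card_wd {n : ℕ} (h : ℕ) {a b : Fin n} (hab : a ≠ b) :
    Fintype.card ((Fin 2 × Fin h) ⊕ ({c : Fin n // c ≠ a ∧ c ≠ b} × Fin h)) = n * h := by
  classical
  have h1 : Fintype.card {c : Fin n // c ≠ a ∧ c ≠ b} + 2 = n := by
    rw [Fintype.card_subtype]
    have h2 : (univ.filter (fun c : Fin n => c ≠ a ∧ c ≠ b)) = univ \ {a, b} := by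
      ext c
      simp
    have h3 := card_sdiff_add_card_eq_card (subset_univ ({a, b} : Finset (Fin n)))
    rw [card_pair hab, card_univ, Fintype.card_fin] at h3
    rw [h2]
    exact h3
  rw [Fintype.card_sum, Fintype.card_prod, Fintype.card_prod, Fintype.card_fin, Fintype.card_fin,
    ← add_mul, add_comm 2, h1]

theorem card_sum_filter {α β : Type} [Fintype α] [Fintype β] (P : α ⊕ β → Prop)
    [DecidablePred P] : (univ.filter P).card =
      (univ.filter (fun x => P (Sum.inl x))).card + (univ.filter (fun x => P (Sum.inr x))).card := by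
  classical
  simp only [card_filter]
  rw [Fintype.sum_sum_type]

theorem bal_wd {n h : ℕ} {a b : Fin n} (hab : a ≠ b) {A : Finset (Fin (2 * h))}
    (hA : A.card = h) : Bal h (wd a b A) := by
  classical
  intro d
  rw [card_sum_filter]
  simp only [wd, Sum.elim_inl, Sum.elim_inr]
  have e1 : (univ.filter (fun z : Fin 2 × Fin h => (finProdFinEquiv z : Fin (2 * h)) ∈ A)).card =
      h := by
    rw [card_filter_equiv finProdFinEquiv (fun z : Fin (2 * h) => z ∈ A)]
    rw [filter_univ_mem, hA]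
  have e2 : (univ.filter (fun z : Fin 2 × Fin h => ¬ (finProdFinEquiv z : Fin (2 * h)) ∈ A)).card =
      h := by
    have h3 := card_filter_add_card_filter_not (s := (univ : Finset (Fin 2 × Fin h)))
      (fun z => (finProdFinEquiv z : Fin (2 * h)) ∈ A)
    rw [e1, card_univ, Fintype.card_prod, Fintype.card_fin, Fintype.card_fin] at h3
    omega
  by_cases hda : d = a
  · subst hda
    have h1 : (univ.filter (fun z : Fin 2 × Fin h =>
        (if (finProdFinEquiv z : Fin (2 * h)) ∈ A then d else b) = d)) =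
        univ.filter (fun z : Fin 2 × Fin h => (finProdFinEquiv z : Fin (2 * h)) ∈ A) := by
      ext z
      simp only [mem_filter, mem_univ, true_and]
      split_ifs with h
      · simp [h]
      · simp [h, hab.symm]
    have h2 : (univ.filter (fun z : {c : Fin n // c ≠ d ∧ c ≠ b} × Fin h => z.1.1 = d)) = ∅ := by
      ext z
      simp [z.1.2.1]
    rw [h1, h2, e1, card_empty, add_zero]
  · by_cases hdb : d = b
    · subst hdb
      have h1 : (univ.filter (fun z : Fin 2 × Fin h =>
          (if (finProdFinEquiv z : Fin (2 * h)) ∈ A then a else d) = d)) =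
          univ.filter (fun z : Fin 2 × Fin h => ¬ (finProdFinEquiv z : Fin (2 * h)) ∈ A) := by
        ext z
        simp only [mem_filter, mem_univ, true_and]
        split_ifs with h
        · simp [h, hab]
        · simp [h]
      have h2 : (univ.filter (fun z : {c : Fin n // c ≠ a ∧ c ≠ d} × Fin h => z.1.1 = d)) = ∅ := by
        ext z
        simp [z.1.2.2]
      rw [h1, h2, e2, card_empty, add_zero]
    · have h1 : (univ.filter (fun z : Fin 2 × Fin h =>
          (if (finProdFinEquiv z : Fin (2 * h)) ∈ A then a else b) = d)) = ∅ := by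
        ext z
        simp only [mem_filter, mem_univ, true_and, notMem_empty, iff_false]
        split_ifs
        · exact fun h => hda h.symm
        · exact fun h => hdb h.symm
      have h2 : (univ.filter (fun z : {c : Fin n // c ≠ a ∧ c ≠ b} × Fin h => z.1.1 = d)) =
          univ.image (fun i : Fin h => ((⟨d, hda, hdb⟩ : {c : Fin n // c ≠ a ∧ c ≠ b}), i)) := by
        ext ⟨c, i⟩
        simp only [mem_filter, mem_univ, true_and, mem_image, Prod.mk.injEq, Subtype.ext_iff]
        constructor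
        · intro h
          exact ⟨i, h.symm, rfl⟩
        · rintro ⟨_, h, _⟩
          exact h.symm
      rw [h1, h2, card_empty, zero_add, card_image_of_injective _ (fun x y h => (Prod.mk.inj h).2),
        card_univ, Fintype.card_fin]

theorem sep_wd {n h p : ℕ} {a b : Fin n} {A B : Finset (Fin (2 * h))}
    (hAB : p ≤ (A \ B).card) :
    p ≤ (univ.filter (fun i => wd a b A i = a ∧ wd a b B i = b)).card := by
  classical
  refine hAB.trans ?_
  rw [← card_image_of_injective (f := fun q => (Sum.inl (finProdFinEquiv.symm q) :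
    (Fin 2 × Fin h) ⊕ ({c : Fin n // c ≠ a ∧ c ≠ b} × Fin h))) _
    (fun x y hxy => finProdFinEquiv.symm.injective (Sum.inl_injective hxy))]
  apply card_le_card
  intro i hi
  rw [mem_image] at hi
  obtain ⟨q, hq, rfl⟩ := hi
  rw [Finset.mem_sdiff] at hq
  refine mem_filter.2 ⟨mem_univ _, ?_, ?_⟩
  · simp only [wd, Sum.elim_inl, Equiv.apply_symm_apply]
    rw [if_pos hq.1]
  · simp only [wd, Sum.elim_inl, Equiv.apply_symm_apply]
    rw [if_neg hq.2]

theorem ach_pair {n p : ℕ} (hp : 1 ≤ p) (hn : 2 ≤ n) {a b : Fin n} (hab : a ≠ b) {ρ : ℝ}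
    (hρ : ρ < 2 / n) : Ach n p (fun x y => (x = a ∧ y = b) ∨ (x = b ∧ y = a)) ρ := by
  classical
  have hn0 : (0 : ℝ) < n := by exact_mod_cast (by omega : 0 < n)
  have hc0 : 0 < 2 - ρ * n := by
    rw [lt_div_iff₀ hn0] at hρ
    linarith
  obtain ⟨h, hh, hh1⟩ := ((eventually_poly_le (C := 2 * (p : ℝ) ^ 2 * 2 ^ (2 * p)) (2 * p + 1)
    hc0).and (eventually_ge_atTop 1)).exists
  obtain ⟨F, hF0, hF, hFc⟩ := code_exists hp h
  have hinj : Set.InjOn (fun A : Finset (Fin (2 * h)) => wd a b A) F := by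
    intro A _ B _ hAB
    ext q
    have h1 := congrFun hAB (Sum.inl (finProdFinEquiv.symm q))
    simp only [wd, Sum.elim_inl, Equiv.apply_symm_apply] at h1
    by_cases hA : q ∈ A <;> by_cases hB : q ∈ B
    · simp [hA, hB]
    · simp only [hA, hB, if_true, if_false] at h1
      exact absurd h1 hab
    · simp only [hA, hB, if_true, if_false] at h1
      exact absurd h1.symm hab
    · simp [hA, hB]
  have hcode : Code ((Fin 2 × Fin h) ⊕ ({c : Fin n // c ≠ a ∧ c ≠ b} × Fin h)) p h
      (fun x y => (x = a ∧ y = b) ∨ (x = b ∧ y = a)) (F.image (fun A => wd a b A)) := by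
    constructor
    · intro x hx
      rw [mem_image] at hx
      obtain ⟨A, hA, rfl⟩ := hx
      exact bal_wd hab (hF0 A hA)
    · intro x hx y hy hxy c d hcd
      rw [mem_image] at hx hy
      obtain ⟨A, hA, rfl⟩ := hx
      obtain ⟨B, hB, rfl⟩ := hy
      have hne : A ≠ B := fun h => hxy (by rw [h])
      rcases hcd with ⟨rfl, rfl⟩ | ⟨rfl, rfl⟩
      · exact sep_wd (hF A hA B hB hne)
      · refine (sep_wd (a := d) (b := c) (hF B hB A hA hne.symm)).trans (le_of_eq ?_)
        congr 1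
        ext i
        simp [and_comm]
  let e : (Fin 2 × Fin h) ⊕ ({c : Fin n // c ≠ a ∧ c ≠ b} × Fin h) ≃ Fin (n * h) :=
    Fintype.equivFinOfCardEq (card_wd h hab)
  obtain ⟨h1, h2⟩ := hcode.transport e.symm
  refine ⟨h, hh1, _, h1, ?_⟩
  rw [h2, card_image_of_injOn hinj]
  have h4 : 4 ^ h ≤ 2 * h * (2 * h).choose h := by
    have := Nat.four_pow_le_two_mul_self_mul_centralBinom h (by omega)
    rwa [Nat.centralBinom_eq_two_mul_choose] at this
  have h5 : 4 ^ h ≤ (2 * h * (p * (2 * h + 1) ^ p) ^ 2) * F.card := by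
    refine h4.trans ?_
    calc 2 * h * (2 * h).choose h ≤ 2 * h * (F.card * (p * (2 * h + 1) ^ p) ^ 2) :=
          Nat.mul_le_mul_left _ hFc
      _ = _ := by ring
  have h5' : (4 : ℝ) ^ h ≤ (2 * h * (p * (2 * h + 1) ^ p) ^ 2) * F.card := by exact_mod_cast h5
  have h6 : (2 * (h : ℝ) * (p * (2 * h + 1) ^ p) ^ 2) ≤ 2 ^ ((2 - ρ * n) * h) := by
    refine le_trans ?_ hh
    have h7 : (2 * (h : ℝ) + 1) ^ p ≤ (2 * ((h : ℝ) + 1)) ^ p :=
      pow_le_pow_left₀ (by positivity) (by linarith) _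
    have h8 : (p * (2 * (h : ℝ) + 1) ^ p) ^ 2 ≤ (p * (2 * ((h : ℝ) + 1)) ^ p) ^ 2 :=
      pow_le_pow_left₀ (by positivity) (mul_le_mul_of_nonneg_left h7 (by positivity)) _
    calc (2 * (h : ℝ) * (p * (2 * h + 1) ^ p) ^ 2)
        ≤ 2 * ((h : ℝ) + 1) * (p * (2 * ((h : ℝ) + 1)) ^ p) ^ 2 :=
          mul_le_mul (by linarith) h8 (by positivity) (by positivity)
      _ = 2 * (p : ℝ) ^ 2 * 2 ^ (2 * p) * ((h : ℝ) + 1) ^ (2 * p + 1) := by
          rw [mul_pow, mul_pow, mul_pow, ← pow_mul, ← pow_mul]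
          ring
  have h7 : (2 : ℝ) ^ ((2 - ρ * n) * h) * 2 ^ (ρ * (n * h)) = 4 ^ h := by
    rw [← Real.rpow_add (by norm_num), show (2 - ρ * n) * (h : ℝ) + ρ * (n * h) = 2 * h by ring,
      Real.rpow_mul (by norm_num), Real.rpow_natCast]
    norm_num
  have h8 : (2 : ℝ) ^ ((2 - ρ * n) * h) * 2 ^ (ρ * (n * h)) ≤
      2 ^ ((2 - ρ * n) * h) * F.card := by
    rw [h7]
    exact h5'.trans (mul_le_mul_of_nonneg_right h6 (Nat.cast_nonneg _))
  exact le_of_mul_le_mul_left h8 (by positivity)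

theorem ach_all {n p : ℕ} (hp : 1 ≤ p) (hn : 2 ≤ n) (s : Finset (Fin n × Fin n))
    (hs : ∀ z ∈ s, z.1 ≠ z.2) : ∀ ρ : ℝ, 0 ≤ ρ → ρ < 2 / n →
    Ach n p (fun a b => (a, b) ∈ s) ρ := by
  classical
  induction s using Finset.induction_on with
  | empty =>
    intro ρ _ hρ
    have h01 : (⟨0, by omega⟩ : Fin n) ≠ ⟨1, by omega⟩ := by
      intro h
      have := congrArg Fin.val h
      simp at this
    exact (ach_pair hp hn h01 hρ).mono (fun a b h => absurd h (notMem_empty _))
  | insert z s hz ih =>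
    intro ρ hρ0 hρ
    obtain ⟨ρ₁, h1, h2⟩ := exists_between hρ
    have h3 := ih (fun z hz => hs z (mem_insert_of_mem hz)) ρ₁ (hρ0.trans h1.le) h2
    have h4 := ach_pair (ρ := ρ₁) hp hn (hs z (mem_insert_self _ _)) h2
    refine (Ach.step (by omega) h1 h4 h3).mono ?_
    intro a b hab
    rw [mem_insert] at hab
    rcases hab with h | h
    · left
      left
      exact ⟨congrArg Prod.fst h, congrArg Prod.snd h⟩
    · right
      exact h

/-- All pairs of letters at once (with the diagonal pairs added). -/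
theorem upper_asymp {n p : ℕ} (hp : 1 ≤ p) (hn : 2 ≤ n) {ε : ℝ} (hε : 0 < ε) :
    ∀ᶠ k : ℕ in atTop, (theta (KM n k) p : ℝ) ≤ ((n : ℝ) / 2 + ε) * Real.logb 2 k := by
  classical
  have hn0 : (0 : ℝ) < n := by exact_mod_cast (by omega : 0 < n)
  obtain ⟨ρ, hρ⟩ : ∃ ρ : ℝ, ρ = 2 / (n + ε) := ⟨_, rfl⟩
  have hρ0 : 0 < ρ := by rw [hρ]; positivity
  have hρn : ρ < 2 / n := by
    rw [hρ]
    exact div_lt_div_of_pos_left (by norm_num) hn0 (by linarith)
  obtain ⟨m, hm, C, hC, hc⟩ := ach_all hp hn (univ.filter (fun z : Fin n × Fin n => z.1 ≠ z.2))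
    (fun z hz => (mem_filter.1 hz).2) ρ hρ0.le hρn
  have h1 := tendsto_logb.eventually (eventually_ge_atTop ((2 * (n * m + n * p) : ℝ) / ε))
  filter_upwards [h1, eventually_ge_atTop 2] with k hk hk2
  have hk0 : (0 : ℝ) < k := by exact_mod_cast (by omega : 0 < k)
  set x := Real.logb 2 k with hx
  have hkx : (2 : ℝ) ^ x = k := Real.rpow_logb (by norm_num) (by norm_num) hk0
  have hx0 : 0 ≤ x := Real.logb_nonneg (by norm_num) (by exact_mod_cast (by omega : 1 ≤ k))
  have hm0 : (0 : ℝ) < m := by exact_mod_cast (by omega : 0 < m)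
  obtain ⟨q, hq⟩ : ∃ q : ℕ, q = ⌈x / (ρ * (n * m))⌉₊ := ⟨_, rfl⟩
  have hq1 : x / (ρ * (n * m)) ≤ q := by rw [hq]; exact Nat.le_ceil _
  have hq2 : (q : ℝ) < x / (ρ * (n * m)) + 1 := by
    rw [hq]
    exact Nat.ceil_lt_add_one (by positivity)
  obtain ⟨C', hC', hc'⟩ := code_mul hC hc q
  have hkC : k ≤ C'.card := by
    have h2 : (k : ℝ) ≤ C'.card := by
      refine le_trans ?_ hc'
      rw [← hkx]
      apply Real.rpow_le_rpow_of_exponent_le (by norm_num)
      rw [div_le_iff₀ (by positivity)] at hq1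
      linarith
    exact_mod_cast h2
  let e := C'.equivFin
  let W : Fin k → Fin (n * (q * m)) → Fin n := fun l => (e.symm (Fin.castLE hkC l)).1
  have hW : ∀ l l', l ≠ l' → W l ≠ W l' := by
    intro l l' hl h
    exact hl (Fin.castLE_injective hkC (e.symm.injective (Subtype.ext h)))
  have hrep : CA p n k (n * (q * m) + n * p) := by
    let g : Fin (n * (q * m)) ⊕ (Fin n × Fin p) ≃ Fin (n * (q * m) + n * p) :=
      (Equiv.sumCongr (Equiv.refl _) finProdFinEquiv).trans finSumFinEquiv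
    refine ⟨fun l i => Sum.elim (W l) (fun z => z.1) (g.symm i), ?_⟩
    intro l l' hll a b
    rw [card_filter_equiv g.symm (fun i => Sum.elim (W l) (fun z => z.1) i = a ∧
      Sum.elim (W l') (fun z => z.1) i = b), card_sum_filter]
    simp only [Sum.elim_inl, Sum.elim_inr]
    by_cases hab : a = b
    · subst hab
      have h3 : p ≤ (univ.filter (fun z : Fin n × Fin p => z.1 = a ∧ z.1 = a)).card := by
        have h4 : (univ.image (fun c : Fin p => (a, c))).card = p := by
          rw [card_image_of_injective _ (fun x y h => (Prod.mk.inj h).2), card_univ,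
            Fintype.card_fin]
        refine h4.symm.le.trans (card_le_card ?_)
        intro z hz
        rw [mem_image] at hz
        obtain ⟨c, _, rfl⟩ := hz
        simp
      omega
    · have h3 := hC'.2 _ (e.symm (Fin.castLE hkC l)).2 _ (e.symm (Fin.castLE hkC l')).2
        (hW l l' hll) a b (by simpa using hab)
      exact h3.trans (Nat.le_add_right _ _)
  have h2 : theta (KM n k) p ≤ n * (q * m) + n * p := Nat.sInf_le (hrep.rep hp)
  have h3 : (theta (KM n k) p : ℝ) ≤ n * (q * m) + n * p := by exact_mod_cast h2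
  have h4 : (n : ℝ) * (q * m) ≤ x * ((n + ε) / 2) + n * m := by
    have h5 : (q : ℝ) * (n * m) ≤ (x / (ρ * (n * m)) + 1) * (n * m) :=
      mul_le_mul_of_nonneg_right hq2.le (by positivity)
    have h6 : (x / (ρ * (n * m)) + 1) * (n * m) = x * ((n + ε) / 2) + n * m := by
      rw [hρ]
      field_simp
    rw [h6] at h5
    calc (n : ℝ) * (q * m) = q * (n * m) := by ring
      _ ≤ _ := h5
  have h5 : 2 * ((n : ℝ) * m + n * p) ≤ x * ε := by
    rw [div_le_iff₀ hε] at hk
    exact hk
  nlinarith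

/-- **The `p`-intersection number of the complete multipartite graphs** (Q2 of the problem):
for all `p ≥ 1` and `n ≥ 2` it is asymptotically equal to `(n / 2) log_2 k` for `k` parts of size
`n`, as `k → ∞`. -/
theorem result (p n : ℕ) (hp : 1 ≤ p) (hn : 2 ≤ n) :
    (∀ k : ℕ, 2 ≤ k → Rep (KM n k) p (theta (KM n k) p)) ∧
    Tendsto (fun k : ℕ => (theta (KM n k) p : ℝ) / ((n : ℝ) / 2 * Real.logb 2 k)) atTop (𝓝 1) := by
  refine ⟨fun k hk => rep_theta hp hk, ?_⟩
  have hn0 : (0 : ℝ) < n := by exact_mod_cast (by omega : 0 < n)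
  rw [Metric.tendsto_atTop']
  intro δ hδ
  obtain ⟨ε, hε⟩ : ∃ ε : ℝ, ε = n / 2 * (δ / 2) := ⟨_, rfl⟩
  have hε0 : 0 < ε := by rw [hε]; positivity
  have h1 := lower_asymp (p := p) hp hn hε0
  have h2 := upper_asymp (p := p) hp hn hε0
  have h3 := tendsto_logb.eventually (eventually_gt_atTop 0)
  obtain ⟨N, hN⟩ := eventually_atTop.1 ((h1.and h2).and h3)
  refine ⟨N, fun k hk => ?_⟩
  obtain ⟨⟨h4, h5⟩, h6⟩ := hN k hk.le
  have h7 : 0 < (n : ℝ) / 2 * Real.logb 2 k := by positivity
  rw [Real.dist_eq, abs_lt]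
  constructor
  · rw [lt_sub_iff_add_lt, lt_div_iff₀ h7]
    rw [hε] at h4
    nlinarith
  · rw [sub_lt_iff_lt_add, div_lt_iff₀ h7]
    rw [hε] at h5
    nlinarith

end Pool.Agent.Results.MP_890668_co.CompleteMultipartite
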